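import Pool.Agent.SGK.Stmts

set_option autoImplicit false

/-!
# Row CO3: the number of good vertices of the three rotations
-/

namespace Pool.Agent.SGK.H24

open Pool.Agent.SGE Pool.Agent.SGK

lemma keyCount {α : Type} (T : List α) (A B E F1 F2 F3 : α → Bool)
    (h1 : ∀ y, F1 y = (!A y && !B y)) (h2 : ∀ y, F2 y = (!B y && E y))
    (h3 : ∀ y, F3 y = (!A y && E y)) :
    2 * T.length + (T.filter E).length ≤ T.length + (T.filter A).length + (T.filter B).length +
      (T.filter F1).length + (T.filter F2).length + (T.filter F3).length := by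
  induction T with
  | nil => exact le_refl _
  | cons x T ih =>
    simp only [List.filter_cons, h1, h2, h3, List.length_cons] at ih ⊢
    cases A x <;> cases B x <;> cases E x <;>
      simp only [Bool.not_true, Bool.not_false, Bool.and_true, Bool.and_false, Bool.and_self,
        Bool.false_eq_true, List.length_cons, ↓reduceIte] <;> omega

lemma filter_head {α : Type} (hd : α) (T : List α) (f g : α → Bool) (h : ∀ y ∈ T, f y = g y) :
    ((hd :: T).filter f).length ≤ ((hd :: T).filter g).length + 1 := by
  have e : T.filter f = T.filter g := List.filter_congr h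
  rw [List.filter_cons, List.filter_cons, e]
  split_ifs <;> (try simp only [List.length_cons]) <;> omega

lemma filter_head' {α : Type} (hd : α) (T : List α) (f g : α → Bool) (h : ∀ y ∈ T, f y = g y)
    (hf : f hd = false) : ((hd :: T).filter f).length ≤ ((hd :: T).filter g).length := by
  have e : T.filter f = T.filter g := List.filter_congr h
  rw [List.filter_cons, List.filter_cons, e, hf, if_neg Bool.false_ne_true]
  split_ifs <;> (try simp only [List.length_cons]) <;> omega

lemma rcan_two {V : Type} {a b : V} {C : List V} {S : List (V × List V)} (h : RCan a b C S)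
    (hC : C.length = 2) : S = [] := by
  cases h with
  | base _ => rfl
  | step _ _ _ _ _ =>
    exfalso
    simp only [List.length_append, List.length_cons] at hC
    omega

lemma rcan_top {V : Type} {a b c : V} {C : List V} {S : List (V × List V)} (h : RCan a b C S)
    (hC : C = [a, c, b]) (hS : 2 ≤ S.length) :
    ∃ (ℓ : List V) (S0 : List (V × List V)), S = (c, ℓ) :: S0 ∧ 3 ≤ ℓ.length := by
  cases h with
  | base _ => simp at hC
  | @step P Q mid p q v S' h' _ _ _ _ =>
    cases P with
    | nil =>
      simp only [List.nil_append, List.cons.injEq] at hC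
      obtain ⟨hp, hv, hq, hQ⟩ := hC
      refine ⟨p :: (mid ++ [q]), S', ?_, ?_⟩
      · rw [hv]
      · cases mid with
        | nil =>
          exfalso
          have h2 := rcan_two h' (by
            rw [hQ]
            rfl)
          rw [h2] at hS
          simp at hS
        | cons m mid =>
          simp only [List.length_cons, List.length_append, List.length_nil]
          omega
    | cons x P =>
      exfalso
      have h3 := congrArg List.length hC
      simp only [List.length_append, List.length_cons, List.length_nil] at h3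
      omega

theorem co3 (hCb : CbStmt) (hC3a : C3aStmt) : Co3Stmt := by
  intro V a b c S h hS
  have hne : S ≠ [] := by
    intro e
    rw [e] at hS
    simp at hS
  obtain ⟨D, i1, i2, i3, i4⟩ := hC3a h hne
  obtain ⟨ℓ, S0, hS0, hℓ⟩ := rcan_top h rfl hS
  have hnd := (hCb h.can).2.2.2.2.1
  have hc : ∀ y ∈ S0, y.1 ≠ c := by
    intro y hy e
    rw [hS0, List.map_cons, List.nodup_cons] at hnd
    exact hnd.1 (List.mem_map.2 ⟨y, hy, e⟩)
  classical
  have k := keyCount S (fun y => decide (IsL S y.1)) (fun y => decide (IsR S y.1))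
    (fun y => decide (y.2.length = 2)) (fun y => decide (¬ IsL S y.1 ∧ ¬ IsR S y.1))
    (fun y => decide (¬ IsR S y.1 ∧ y.2.length = 2))
    (fun y => decide (¬ IsL S y.1 ∧ y.2.length = 2))
    (fun y => by simp only [Bool.decide_and, decide_not])
    (fun y => by simp only [Bool.decide_and, decide_not])
    (fun y => by simp only [Bool.decide_and, decide_not])
  have g1 : (S.filter fun y => decide (¬ IsL S y.1 ∧ ¬ IsR S y.1)).length ≤
      (S.filter fun y => decide (y.1 ≠ c ∧ ¬ IsL S y.1 ∧ ¬ IsR S y.1)).length + 1 := by
    have := filter_head (c, ℓ) S0 (fun y => decide (¬ IsL S y.1 ∧ ¬ IsR S y.1))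
      (fun y => decide (y.1 ≠ c ∧ ¬ IsL S y.1 ∧ ¬ IsR S y.1)) (fun y hy => by
        rw [decide_eq_decide]
        exact ⟨fun e => ⟨hc y hy, e⟩, fun e => e.2⟩)
    rwa [← hS0] at this
  have g2 : (S.filter fun y => decide (¬ IsR S y.1 ∧ y.2.length = 2)).length ≤
      (S.filter fun y => decide (y.1 ≠ c ∧ ¬ IsR S y.1 ∧ y.2.length = 2)).length := by
    have := filter_head' (c, ℓ) S0 (fun y => decide (¬ IsR S y.1 ∧ y.2.length = 2))
      (fun y => decide (y.1 ≠ c ∧ ¬ IsR S y.1 ∧ y.2.length = 2)) (fun y hy => by
        rw [decide_eq_decide]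
        exact ⟨fun e => ⟨hc y hy, e⟩, fun e => e.2⟩) (by
        rw [decide_eq_false_iff_not]
        intro e
        have e2 : ℓ.length = 2 := e.2
        omega)
    rwa [← hS0] at this
  have g3 : (S.filter fun y => decide (¬ IsL S y.1 ∧ y.2.length = 2)).length ≤
      (S.filter fun y => decide (y.1 ≠ c ∧ ¬ IsL S y.1 ∧ y.2.length = 2)).length := by
    have := filter_head' (c, ℓ) S0 (fun y => decide (¬ IsL S y.1 ∧ y.2.length = 2))
      (fun y => decide (y.1 ≠ c ∧ ¬ IsL S y.1 ∧ y.2.length = 2)) (fun y hy => by
        rw [decide_eq_decide]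
        exact ⟨fun e => ⟨hc y hy, e⟩, fun e => e.2⟩) (by
        rw [decide_eq_false_iff_not]
        intro e
        have e2 : ℓ.length = 2 := e.2
        omega)
    rwa [← hS0] at this
  have j1 : (S.filter fun y => decide (IsL S y.1)).length +
      (S.filter fun y => decide (IsR S y.1)).length + 1 ≤
      (S.filter fun y => decide (y.2.length = 2)).length + D := i1
  have j2 : (S.filter fun y => decide (y.2.length = 2)).length + D ≤ S.length := i2
  have j3 : D ≤ (S.filter fun y => decide (IsL S y.1)).length := i3
  have j4 : D ≤ (S.filter fun y => decide (IsR S y.1)).length := i4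
  have goal : S.length + 1 ≤
    2 * ((S.filter fun y => decide (y.1 ≠ c ∧ ¬ IsL S y.1 ∧ ¬ IsR S y.1)).length +
      (S.filter fun y => decide (y.1 ≠ c ∧ ¬ IsR S y.1 ∧ y.2.length = 2)).length +
      (S.filter fun y => decide (y.1 ≠ c ∧ ¬ IsL S y.1 ∧ y.2.length = 2)).length) := by
    omega
  exact goal

end Pool.Agent.SGK.H24
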